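import Mathlib

set_option autoImplicit false

open Filter Topology MeasureTheory

namespace Pool.Agent.H493Z.Boom

/-- The space `Sub(Γ)` of all subgroups of `Γ`. -/
def SubSp (Γ : Type*) [Group Γ] : Type _ := Subgroup Γ

variable {Γ : Type*} [Group Γ]

/-- The subgroup underlying a point of `Sub(Γ)`. -/
def SubSp.grp (Δ : SubSp Γ) : Subgroup Γ := Δ

open Classical in
/-- The indicator function of a subgroup, a point of `{0,1}^Γ`. -/
noncomputable def SubSp.ind (Δ : SubSp Γ) : Γ → Bool := fun g => decide (g ∈ Δ.grp)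

/-- `Sub(Γ)` carries the topology induced from the product topology on `{0,1}^Γ`. -/
noncomputable instance : TopologicalSpace (SubSp Γ) :=
  TopologicalSpace.induced SubSp.ind Pi.topologicalSpace

/-- `Sub(Γ)` carries the Borel sigma-algebra. -/
noncomputable instance : MeasurableSpace (SubSp Γ) := borel (SubSp Γ)

/-- The conjugate `γ Δ γ⁻¹`. -/
def conj (γ : Γ) (Δ : SubSp Γ) : SubSp Γ := Δ.grp.map (MulAut.conj γ).toMonoidHom

/-- Boomerang subgroup: for every `γ` there is `n_k → ∞` with `γ^{n_k} Δ γ^{-n_k} → Δ`. -/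
def IsBoomerang (Δ : SubSp Γ) : Prop :=
  ∀ γ : Γ, ∃ n : ℕ → ℕ, Tendsto n atTop atTop ∧
    Tendsto (fun k => conj (γ ^ n k) Δ) atTop (𝓝 Δ)

/-- Invariant random subgroup: a conjugation invariant Borel probability measure on `Sub(Γ)`. -/
def IsIRS (μ : Measure (SubSp Γ)) : Prop :=
  IsProbabilityMeasure μ ∧
    ∀ (γ : Γ) (A : Set (SubSp Γ)), MeasurableSet A → μ (conj γ ⁻¹' A) = μ A

/-- The closure of the conjugacy class of `Δ` in `Sub(Γ)`. -/
def orbitClosure (Δ : SubSp Γ) : Set (SubSp Γ) := closure (Set.range fun γ : Γ => conj γ Δ)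

end Pool.Agent.H493Z.Boom
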