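import Mathlib

set_option autoImplicit false

open Filter Topology

namespace Pool.Agent.H493Z.Boom

abbrev Y := FreeGroup (ZMod 3)
abbrev Lt := ZMod 3 × Bool

def lt (l : Lt) : Y := FreeGroup.mk [l]

def om (c c' : ZMod 3) : ℤ := if c' = c - 1 then 1 else if c' = c then 0 else -1

lemma om_anti : ∀ c c' : ZMod 3, om c c' = - om c' c := by decide
lemma om_le : ∀ c c' : ZMod 3, om c c' ≤ 1 := by decide
lemma om_ge : ∀ c c' : ZMod 3, -1 ≤ om c c' := by decide
lemma om_down : ∀ c : ZMod 3, om c (c - 1) = 1 := by decide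

def K : Set (Y → ZMod 3) := {x | ∀ v, 1 ≤ ∑ l : Lt, om (x v) (x (lt l * v))}

lemma norm_lt (l : Lt) : (lt l).norm = 1 := by
  simp [lt, FreeGroup.norm, FreeGroup.toWord_mk]

lemma norm_lt_mul_le (l : Lt) (v : Y) : (lt l * v).norm ≤ v.norm + 1 := by
  have := FreeGroup.norm_mul_le (lt l) v
  rw [norm_lt] at this; omega

lemma toWord_lt_mul (l : Lt) (v : Y) :
    (lt l * v).toWord = l :: v.toWord ∨
      ∃ tl, v.toWord = (l.1, !l.2) :: tl ∧ (lt l * v).toWord = tl := by
  have h1 : (lt l * v).toWord = FreeGroup.reduce (l :: v.toWord) := by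
    conv_lhs => rw [← FreeGroup.mk_toWord (x := v)]
    rw [lt, FreeGroup.mul_mk, FreeGroup.toWord_mk]; rfl
  rw [h1, FreeGroup.reduce.cons, FreeGroup.reduce_toWord]
  rcases hv : v.toWord with _ | ⟨hd, tl⟩
  · left; rfl
  · by_cases hc : l.1 = hd.1 ∧ l.2 = !hd.2
    · right
      refine ⟨tl, ?_, ?_⟩
      · congr 1
        ext
        · exact hc.1.symm
        · simp [hc.2]
      · simp only [hc, and_self, if_true]
    · left
      simp only [hc, if_false]

lemma exists_bad (v : Y) : ∃ l1 : Lt, ∀ l, l ≠ l1 → (lt l * v).toWord = l :: v.toWord := by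
  rcases hv : v.toWord with _ | ⟨hd, tl⟩
  · refine ⟨(0, true), fun l _ => ?_⟩
    rcases toWord_lt_mul l v with h | ⟨tl, h, -⟩
    · rw [h, hv]
    · rw [hv] at h; cases h
  · refine ⟨(hd.1, !hd.2), fun l hl => ?_⟩
    rcases toWord_lt_mul l v with h | ⟨tl', h, -⟩
    · rw [h, hv]
    · rw [hv] at h
      exfalso; apply hl
      have := (List.cons.inj h).1
      rw [this]; simp

def ext (x : Y → ZMod 3) (R : ℕ) : List Lt → ZMod 3
  | [] => x 1
  | l :: w => if w.length + 1 ≤ R then x (FreeGroup.mk (l :: w)) else ext x R w - 1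

def E (x : Y → ZMod 3) (R : ℕ) (y : Y) : ZMod 3 := ext x R y.toWord

lemma E_in (x : Y → ZMod 3) (R : ℕ) (y : Y) (h : y.norm ≤ R) : E x R y = x y := by
  unfold E
  have hy := FreeGroup.mk_toWord (x := y)
  unfold FreeGroup.norm at h
  rcases hv : y.toWord with _ | ⟨hd, tl⟩
  · rw [hv] at hy; rw [← hy]; rfl
  · rw [hv] at hy h
    simp only [List.length_cons] at h
    simp only [ext, h, if_true, hy]

lemma E_out (x : Y → ZMod 3) (R : ℕ) (l : Lt) (v : Y) (h : R ≤ v.norm)
    (hw : (lt l * v).toWord = l :: v.toWord) : E x R (lt l * v) = E x R v - 1 := by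
  unfold E
  unfold FreeGroup.norm at h
  rw [hw]
  have : ¬ (v.toWord.length + 1 ≤ R) := by omega
  simp only [ext, this, if_false]

lemma norm_of_good (l : Lt) (v : Y) (hw : (lt l * v).toWord = l :: v.toWord) :
    (lt l * v).norm = v.norm + 1 := by
  unfold FreeGroup.norm; rw [hw]; rfl

lemma E_rule_in (x : Y → ZMod 3) (hx : x ∈ K) (R : ℕ) (v : Y) (h : v.norm ≤ R) :
    1 ≤ ∑ l : Lt, om (E x R v) (E x R (lt l * v)) := by
  refine (hx v).trans (Finset.sum_le_sum fun l _ => ?_)
  by_cases hl : (lt l * v).norm ≤ R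
  · rw [E_in x R v h, E_in x R _ hl]
  · rcases toWord_lt_mul l v with hw | ⟨tl, h1, h2⟩
    · have := norm_of_good l v hw
      rw [E_out x R l v (by omega) hw, om_down]
      exact om_le _ _
    · exfalso; apply hl
      unfold FreeGroup.norm at h ⊢
      rw [h2]; rw [h1] at h; simp only [List.length_cons] at h; omega

lemma sum_two : ∀ l1 l2 : Lt, (1 : ℤ) ≤ ∑ l : Lt, (if l = l1 ∨ l = l2 then (-1 : ℤ) else 1) := by
  decide

lemma tri (y c : Y) : c.norm ≤ y.norm + (y * c⁻¹).norm := by
  have h := FreeGroup.norm_mul_le (y * c⁻¹)⁻¹ y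
  rw [FreeGroup.norm_inv_eq] at h
  have : (y * c⁻¹)⁻¹ * y = c := by group
  rw [this] at h; omega

lemma glue (x : Y → ZMod 3) (hx : x ∈ K) (R : ℕ) (c : Y) (hc : 2 * R + 3 ≤ c.norm) :
    ∃ x' ∈ K, (∀ y, y.norm ≤ R → x' y = x y) ∧ ∀ y, y.norm ≤ R → x' (y * c) = x y := by
  classical
  refine ⟨fun y => if y.norm ≤ (y * c⁻¹).norm then E x R y else E x R (y * c⁻¹), ?_, ?_, ?_⟩
  · intro v
    have hv := tri v c
    by_cases h1 : v.norm ≤ R
    · refine (E_rule_in x hx R v h1).trans (le_of_eq (Finset.sum_congr rfl fun l _ => ?_))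
      have a1 := norm_lt_mul_le l v
      have a2 := tri (lt l * v) c
      have b1 : v.norm ≤ (v * c⁻¹).norm := by omega
      have b2 : (lt l * v).norm ≤ (lt l * v * c⁻¹).norm := by omega
      simp only [b1, b2, if_true]
    by_cases h2 : (v * c⁻¹).norm ≤ R
    · refine (E_rule_in x hx R _ h2).trans (le_of_eq (Finset.sum_congr rfl fun l _ => ?_))
      have a1 := norm_lt_mul_le l (v * c⁻¹)
      have a2 := tri (lt l * v) c
      rw [← mul_assoc] at a1 ⊢
      have b1 : ¬ v.norm ≤ (v * c⁻¹).norm := by omega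
      have b2 : ¬ (lt l * v).norm ≤ (lt l * v * c⁻¹).norm := by omega
      simp only [b1, b2, if_false]
    obtain ⟨l1, hl1⟩ := exists_bad v
    obtain ⟨l2, hl2⟩ := exists_bad (v * c⁻¹)
    refine (sum_two l1 l2).trans (Finset.sum_le_sum fun l _ => ?_)
    beta_reduce
    split_ifs with h
    all_goals first | exact om_ge _ _ | skip
    all_goals
      push Not at h
      have g1 := hl1 l h.1
      have g2 := hl2 l h.2
      have n1 := norm_of_good _ _ g1
      have n2 := norm_of_good _ _ g2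
      have e1 := E_out x R l v (by omega) g1
      have e2 := E_out x R l (v * c⁻¹) (by omega) g2
      rw [← mul_assoc] at n2 e2
      first
        | (rw [e1, om_down])
        | (rw [e2, om_down])
        | omega
  · intro y hy
    have := tri y c
    have b1 : y.norm ≤ (y * c⁻¹).norm := by omega
    simp only [b1, if_true]
    exact E_in x R y hy
  · intro y hy
    have h := tri (y * c) c
    have e : y * c * c⁻¹ = y := by group
    rw [e] at h
    have b1 : ¬ (y * c).norm ≤ y.norm := by omega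
    simp only [e, b1, if_false]
    exact E_in x R y hy

lemma K_nonempty : K.Nonempty := by
  refine ⟨E (fun _ => 0) 0, fun v => ?_⟩
  obtain ⟨l1, hl1⟩ := exists_bad v
  refine (sum_two l1 l1).trans (Finset.sum_le_sum fun l _ => ?_)
  split_ifs with h
  · exact om_ge _ _
  · push Not at h
    rw [E_out _ 0 l v (by omega) (hl1 l h.1), om_down]

lemma ball_finite (R : ℕ) : {y : Y | y.norm ≤ R}.Finite := by
  have h := List.finite_length_le Lt R
  exact (h.preimage (f := FreeGroup.toWord) FreeGroup.toWord_injective.injOn).subset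
    (fun y hy => hy)

lemma escape (h : Y) (hh : h ≠ 1) (N m : ℕ) : ∃ n, m ≤ n ∧ N ≤ (h ^ n).norm := by
  by_contra hcon
  push Not at hcon
  have hinj : Function.Injective fun n : ℕ => h ^ n :=
    injective_pow_iff_not_isOfFinOrder.2 (not_isOfFinOrder_of_isMulTorsionFree hh)
  have : (Set.Ici m).Finite := by
    refine ((ball_finite N).preimage hinj.injOn).subset fun n hn => ?_
    exact (hcon n hn).le
  exact Set.Ici_infinite m this

lemma cont2 {X β : Type*} [TopologicalSpace X] [TopologicalSpace β] (F : ZMod 3 → ZMod 3 → β)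
    (f g : X → ZMod 3) (hf : Continuous f) (hg : Continuous g) :
    Continuous fun x => F (f x) (g x) := by
  have : Continuous (fun p : ZMod 3 × ZMod 3 => F p.1 p.2) := continuous_of_discreteTopology
  exact this.comp (hf.prodMk hg)

lemma K_closed : IsClosed K := by
  have : K = ⋂ v, {x : Y → ZMod 3 | 1 ≤ ∑ l : Lt, om (x v) (x (lt l * v))} := by
    ext x; simp [K]
  rw [this]
  refine isClosed_iInter fun v => isClosed_le continuous_const ?_
  refine continuous_finsetSum _ fun l _ => ?_
  exact cont2 om _ _ (continuous_apply v) (continuous_apply (lt l * v))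

instance : Countable Y := FreeGroup.toWord_injective.countable

theorem exists_recurrent : ∃ x ∈ K, ∀ (h : Y) (R m : ℕ), ∃ n, m ≤ n ∧
    ∀ y : Y, y.norm ≤ R → x (y * h ^ n) = x y := by
  have : CompactSpace K := isCompact_iff_compactSpace.1 K_closed.isCompact
  have : Nonempty K := K_nonempty.to_subtype
  let U : Y × ℕ × ℕ → Set K := fun p =>
    {x | ∃ n, p.2.2 ≤ n ∧ ∀ y : Y, y.norm ≤ p.2.1 → x.1 (y * p.1 ^ n) = x.1 y}
  have hopen : ∀ p, IsOpen (U p) := by
    rintro ⟨h, R, m⟩
    have : U (h, R, m) = ⋃ n, ⋃ (_ : m ≤ n), ⋂ y ∈ {y : Y | y.norm ≤ R},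
        {x : K | x.1 (y * h ^ n) = x.1 y} := by
      ext x; simp [U]
    rw [this]
    refine isOpen_iUnion fun n => isOpen_iUnion fun _ => (ball_finite R).isOpen_biInter
      fun y _ => ?_
    have hc : Continuous fun x : K => x.1 (y * h ^ n) - x.1 y :=
      cont2 (fun a b => a - b) _ _ ((continuous_apply (y * h ^ n)).comp continuous_subtype_val)
        ((continuous_apply y).comp continuous_subtype_val)
    have := (isOpen_discrete ({0} : Set (ZMod 3))).preimage hc
    convert this using 1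
    ext x; simp [sub_eq_zero]
  have hdense : ∀ p, Dense (U p) := by
    rintro ⟨h, R, m⟩ x
    by_cases hh : h = 1
    · refine subset_closure ⟨m, le_rfl, fun y _ => ?_⟩
      simp [hh]
    have key : ∀ k : ℕ, ∃ x' : K, x' ∈ U (h, R, m) ∧ ∀ y : Y, y.norm ≤ k → x'.1 y = x.1 y := by
      intro k
      obtain ⟨n, hn, hN⟩ := escape h hh (2 * (max R k) + 3) m
      obtain ⟨x', hx', h1, h2⟩ := glue x.1 x.2 (max R k) (h ^ n) hN
      refine ⟨⟨x', hx'⟩, ⟨n, hn, fun y hy => ?_⟩, fun y hy => h1 y (hy.trans (le_max_right _ _))⟩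
      have hy' : y.norm ≤ max R k := le_trans hy (le_max_left _ _)
      show x' (y * h ^ n) = x' y
      rw [h2 y hy', h1 y hy']
    choose u hu1 hu2 using key
    refine mem_closure_of_tendsto (b := atTop) (f := u) ?_ (Eventually.of_forall hu1)
    rw [tendsto_subtype_rng, tendsto_pi_nhds]
    intro y
    refine tendsto_const_nhds.congr' ?_
    filter_upwards [eventually_ge_atTop y.norm] with k hk
    exact (hu2 k y hk).symm
  obtain ⟨x, hx⟩ := (dense_iInter_of_isOpen hopen hdense).nonempty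
  refine ⟨x.1, x.2, fun h R m => ?_⟩
  exact Set.mem_iInter.1 hx (h, R, m)

end Pool.Agent.H493Z.Boom
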