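import Pool.Agent.H493Z.Boom.Defs
import Pool.Agent.H493Z.Boom.Shift

set_option autoImplicit false

open Filter Topology MeasureTheory

namespace Pool.Agent.H493Z.Boom

section general
variable {Γ : Type*} [Group Γ]

lemma mem_conj (γ g : Γ) (Δ : SubSp Γ) : g ∈ (conj γ Δ).grp ↔ γ⁻¹ * g * γ ∈ Δ.grp := by
  show g ∈ Δ.grp.map (MulAut.conj γ).toMonoidHom ↔ _
  rw [Subgroup.mem_map]
  constructor
  · rintro ⟨x, hx, rfl⟩
    simpa [mul_assoc] using hx
  · intro h
    exact ⟨_, h, by simp [mul_assoc]⟩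

lemma SubSp.ext' {Δ Δ' : SubSp Γ} (h : ∀ g, g ∈ Δ.grp ↔ g ∈ Δ'.grp) : Δ = Δ' :=
  Subgroup.ext h

lemma conj_conj (γ δ : Γ) (Δ : SubSp Γ) : conj γ (conj δ Δ) = conj (γ * δ) Δ := by
  refine SubSp.ext' fun g => ?_
  simp [mem_conj, mul_assoc]

lemma conj_one (Δ : SubSp Γ) : conj 1 Δ = Δ := by
  refine SubSp.ext' fun g => ?_
  simp [mem_conj]

lemma continuous_ind : Continuous (SubSp.ind : SubSp Γ → Γ → Bool) := continuous_induced_dom

lemma continuous_ind_apply (g : Γ) : Continuous fun Δ : SubSp Γ => Δ.ind g :=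
  (continuous_apply g).comp continuous_ind

lemma continuous_to_Sub {X : Type*} [TopologicalSpace X] (f : X → SubSp Γ)
    (h : ∀ g, Continuous fun x => (f x).ind g) : Continuous f :=
  continuous_induced_rng.2 (continuous_pi h)

lemma continuous_conj (γ : Γ) : Continuous (conj γ : SubSp Γ → SubSp Γ) := by
  refine continuous_to_Sub _ fun g => ?_
  have : (fun Δ : SubSp Γ => (conj γ Δ).ind g) = fun Δ => Δ.ind (γ⁻¹ * g * γ) := by
    ext Δ; simp only [SubSp.ind]
    exact decide_eq_decide.2 (mem_conj γ g Δ)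
  rw [this]; exact continuous_ind_apply _

instance : BorelSpace (SubSp Γ) := ⟨rfl⟩

lemma integral_conj (μ : Measure (SubSp Γ)) (hμ : IsIRS μ) (γ : Γ) (f : SubSp Γ → ℝ)
    (hf : Continuous f) : ∫ Δ, f (conj γ Δ) ∂μ = ∫ Δ, f Δ ∂μ := by
  have hm : Measurable (conj γ : SubSp Γ → SubSp Γ) := (continuous_conj γ).measurable
  have h1 : μ.map (conj γ) = μ := by
    ext A hA
    rw [Measure.map_apply hm hA, hμ.2 γ A hA]
  rw [← integral_map hm.aemeasurable hf.measurable.aestronglyMeasurable, h1]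

end general

abbrev Cfg := Y → ZMod 3
abbrev Om := Cfg × ZMod 4

def skew (g : Equiv.Perm Y) (c : Cfg → ZMod 4) : Equiv.Perm Om where
  toFun p := (p.1 ∘ ⇑(g⁻¹), p.2 + c p.1)
  invFun p := (p.1 ∘ ⇑g, p.2 - c (p.1 ∘ ⇑g))
  left_inv p := by
    have : (p.1 ∘ ⇑(g⁻¹)) ∘ ⇑g = p.1 := by ext y; simp
    simp only [this]; simp
  right_inv p := by
    have : (p.1 ∘ ⇑g) ∘ ⇑(g⁻¹) = p.1 := by ext y; simp
    simp only [this]; simp

lemma skew_apply (g : Equiv.Perm Y) (c : Cfg → ZMod 4) (x : Cfg) (e : ZMod 4) :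
    skew g c (x, e) = (x ∘ ⇑(g⁻¹), e + c x) := rfl

def rot (j : ZMod 3) : Y →* Y := FreeGroup.map (fun i => i + j)

lemma rot_rot (i j : ZMod 3) (y : Y) : rot i (rot j y) = rot (j + i) y := by
  unfold rot
  rw [FreeGroup.map.comp]
  congr 2
  ext k; simp [add_assoc]

lemma rot_zero (y : Y) : rot 0 y = y := by
  unfold rot
  simp

lemma rot_lt (j : ZMod 3) (l : Lt) : rot j (lt l) = lt (l.1 + j, l.2) := by
  simp [rot, lt, FreeGroup.map.mk]

def sig : Equiv.Perm Y where
  toFun := rot 1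
  invFun := rot (-1)
  left_inv y := by rw [rot_rot]; simp [rot_zero]
  right_inv y := by rw [rot_rot]; simp [rot_zero]

def phi (c : ZMod 3) : ZMod 4 := if c = 0 then 0 else if c = 1 then 2 else 1

section act
variable {α : Type*} (a b : α)

open Classical in
noncomputable def gen (i : α) : Equiv.Perm Y :=
  if i = a then sig else if i = b then Equiv.mulRight (lt (0, true))⁻¹ else 1

open Classical in
noncomputable def cgen (i : α) : Cfg → ZMod 4 := fun x => if i = a then phi (x 1) else 0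

noncomputable def rho : FreeGroup α →* Equiv.Perm Y := FreeGroup.lift (gen a b)

noncomputable def tau : FreeGroup α →* Equiv.Perm Om :=
  FreeGroup.lift fun i => skew (gen a b i) (cgen a i)

lemma continuous_comp_perm (g : Y → Y) : Continuous fun x : Cfg => x ∘ g :=
  continuous_pi fun y => continuous_apply (g y)

lemma tau_eq (γ : FreeGroup α) : ∃ c : Cfg → ZMod 4, Continuous c ∧
    tau a b γ = skew (rho a b γ) c := by
  induction γ using FreeGroup.induction_on with
  | C1 =>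
    refine ⟨fun _ => 0, continuous_const, ?_⟩
    ext1 ⟨x, e⟩
    simp [skew_apply]
  | of i =>
    refine ⟨cgen a i, ?_, by simp [tau, rho]⟩
    unfold cgen
    split_ifs
    · exact (continuous_of_discreteTopology (f := phi)).comp (continuous_apply 1)
    · exact continuous_const
  | inv_of i ih =>
    obtain ⟨c, hc, h⟩ := ih
    refine ⟨fun x => - c (x ∘ ⇑(rho a b (FreeGroup.of i))), ?_, ?_⟩
    · exact (continuous_of_discreteTopology (f := fun z : ZMod 4 => -z)).comp
        (hc.comp (continuous_comp_perm _))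
    · rw [map_inv, map_inv, h]
      ext1 ⟨x, e⟩
      rw [skew_apply, inv_inv]
      show (skew _ c).symm (x, e) = _
      simp [skew, sub_eq_add_neg]
  | mul γ δ ih1 ih2 =>
    obtain ⟨c, hc, h⟩ := ih1
    obtain ⟨c', hc', h'⟩ := ih2
    refine ⟨fun x => c' x + c (x ∘ ⇑((rho a b δ)⁻¹)), ?_, ?_⟩
    · have : Continuous (fun p : ZMod 4 × ZMod 4 => p.1 + p.2) := continuous_of_discreteTopology
      exact this.comp (hc'.prodMk (hc.comp (continuous_comp_perm _)))
    · rw [map_mul, map_mul, h, h']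
      ext1 ⟨x, e⟩
      rw [Equiv.Perm.mul_apply, skew_apply, skew_apply, skew_apply, add_assoc, mul_inv_rev]
      rfl

noncomputable def coc (γ : FreeGroup α) (x : Cfg) : ZMod 4 := (tau a b γ (x, 0)).2

lemma tau_apply (γ : FreeGroup α) (x : Cfg) (e : ZMod 4) :
    tau a b γ (x, e) = (x ∘ ⇑((rho a b γ)⁻¹), e + coc a b γ x) := by
  obtain ⟨c, -, h⟩ := tau_eq a b γ
  unfold coc
  rw [h, skew_apply, skew_apply, zero_add]

lemma continuous_coc (γ : FreeGroup α) : Continuous (coc a b γ) := by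
  obtain ⟨c, hc, h⟩ := tau_eq a b γ
  have : coc a b γ = c := by
    ext x; unfold coc; rw [h, skew_apply, zero_add]
  rwa [this]

noncomputable def D (x : Cfg) : SubSp (FreeGroup α) :=
  ((rho a b).ker ⊓ (MulAction.stabilizer (Equiv.Perm Om) (x, (0 : ZMod 4))).comap (tau a b) :
    Subgroup (FreeGroup α))

lemma mem_D' (x : Cfg) (γ : FreeGroup α) :
    γ ∈ (D a b x).grp ↔ rho a b γ = 1 ∧ tau a b γ (x, 0) = (x, 0) := Iff.rfl

lemma fix_iff (x : Cfg) (e : ZMod 4) (γ : FreeGroup α) (h : rho a b γ = 1) :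
    tau a b γ (x, e) = (x, e) ↔ coc a b γ x = 0 := by
  rw [tau_apply, h]; simp

lemma mem_D (x : Cfg) (γ : FreeGroup α) :
    γ ∈ (D a b x).grp ↔ rho a b γ = 1 ∧ coc a b γ x = 0 := by
  rw [mem_D']
  exact and_congr_right fun h => fix_iff a b x 0 γ h

lemma conj_D (γ : FreeGroup α) (x : Cfg) :
    conj γ (D a b x) = D a b (x ∘ ⇑((rho a b γ)⁻¹)) := by
  refine SubSp.ext' fun g => ?_
  rw [mem_conj, mem_D', mem_D]
  have h1 : rho a b (γ⁻¹ * g * γ) = 1 ↔ rho a b g = 1 := by
    simp only [map_mul, map_inv]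
    constructor
    · intro h
      have : rho a b g = rho a b γ * ((rho a b γ)⁻¹ * rho a b g * rho a b γ) * (rho a b γ)⁻¹ := by
        group
      rw [this, h]; group
    · intro h; rw [h]; group
  rw [h1]
  refine and_congr_right fun h => ?_
  rw [← fix_iff a b _ (0 + coc a b γ x) g h, ← tau_apply]
  simp only [map_mul, map_inv, Equiv.Perm.mul_apply]
  rw [Equiv.Perm.inv_eq_iff_eq]

lemma continuous_D : Continuous (D a b : Cfg → SubSp (FreeGroup α)) := by
  classical
  refine continuous_to_Sub _ fun g => ?_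
  have : (fun x => (D a b x).ind g) =
      (fun z : ZMod 4 => decide (rho a b g = 1 ∧ z = 0)) ∘ coc a b g := by
    ext x
    simp only [SubSp.ind, mem_D, Function.comp]
  rw [this]
  exact continuous_of_discreteTopology.comp (continuous_coc a b g)

lemma rho_struct (γ : FreeGroup α) : ∃ (h : Y) (j : ZMod 3), ∀ y, rho a b γ y = rot j y * h := by
  have hinv : ∀ γ : FreeGroup α, (∃ (h : Y) (j : ZMod 3), ∀ y, rho a b γ y = rot j y * h) →
      ∃ (h : Y) (j : ZMod 3), ∀ y, rho a b γ⁻¹ y = rot j y * h := by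
    rintro γ ⟨h, j, H⟩
    refine ⟨rot (-j) h⁻¹, -j, fun y => ?_⟩
    rw [map_inv, Equiv.Perm.inv_eq_iff_eq, H, map_mul, rot_rot, rot_rot]
    simp [rot_zero]
  induction γ using FreeGroup.induction_on with
  | C1 => exact ⟨1, 0, fun y => by simp [rot_zero]⟩
  | of i =>
    simp only [rho, FreeGroup.lift_apply_of, gen]
    split_ifs
    · exact ⟨1, 1, fun y => by simp [sig]⟩
    · exact ⟨(lt (0, true))⁻¹, 0, fun y => by simp [rot_zero]⟩
    · exact ⟨1, 0, fun y => by simp [rot_zero]⟩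
  | inv_of i ih => exact hinv _ ih
  | mul γ δ ih1 ih2 =>
    obtain ⟨h, j, H⟩ := ih1
    obtain ⟨h', j', H'⟩ := ih2
    refine ⟨rot j h' * h, j' + j, fun y => ?_⟩
    rw [map_mul, Equiv.Perm.mul_apply, H', H, map_mul, rot_rot, mul_assoc]

lemma rho_cube (γ : FreeGroup α) : ∃ h : Y, ∀ n : ℕ, ∀ y,
    (rho a b (γ ^ (3 * n)))⁻¹ y = y * h ^ n := by
  obtain ⟨h, j, H⟩ := rho_struct a b γ⁻¹
  have h3 : ∀ y, rho a b (γ⁻¹ ^ 3) y = y * (rot j (rot j h) * rot j h * h) := by
    intro y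
    have e : γ⁻¹ ^ 3 = γ⁻¹ * (γ⁻¹ * γ⁻¹) := by rw [pow_succ', pow_two]
    have e3 : j + j + j = 0 := by
      have : ∀ j : ZMod 3, j + j + j = 0 := by decide
      exact this j
    rw [e, map_mul, map_mul, Equiv.Perm.mul_apply, Equiv.Perm.mul_apply, H, H, H]
    simp only [map_mul, mul_assoc]
    rw [rot_rot j j y, rot_rot j (j + j) y, e3, rot_zero]
  refine ⟨rot j (rot j h) * rot j h * h, fun n => ?_⟩
  induction n with
  | zero => simp
  | succ n ih =>
    intro y
    have e : (rho a b (γ ^ (3 * (n + 1))))⁻¹ =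
        rho a b (γ⁻¹ ^ 3) * (rho a b (γ ^ (3 * n)))⁻¹ := by
      rw [← map_inv, ← map_inv, ← map_mul]
      congr 1
      group
    rw [e, Equiv.Perm.mul_apply, ih, h3, pow_succ, mul_assoc]

lemma boomerang_D (x : Cfg) (hx : ∀ (h : Y) (R m : ℕ), ∃ n, m ≤ n ∧
    ∀ y : Y, y.norm ≤ R → x (y * h ^ n) = x y) : IsBoomerang (D a b x) := by
  intro γ
  obtain ⟨h, H⟩ := rho_cube a b γ
  choose n hn1 hn2 using fun k => hx h k k
  refine ⟨fun k => 3 * n k, ?_, ?_⟩
  · exact tendsto_atTop_mono (fun k => by have := hn1 k; show k ≤ 3 * n k; omega) tendsto_id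
  · simp only [conj_D]
    refine ((continuous_D a b).tendsto x).comp ?_
    rw [tendsto_pi_nhds]
    intro y
    refine tendsto_const_nhds.congr' ?_
    filter_upwards [eventually_ge_atTop y.norm] with k hk
    simp only [Function.comp, H]
    exact (hn2 k y hk).symm

lemma rho_a : rho a b (FreeGroup.of a) = sig := by simp [rho, gen]

lemma sig_pow (n : ℕ) (y : Y) : (sig ^ n) y = rot (n : ZMod 3) y := by
  induction n with
  | zero => simp [rot_zero]
  | succ n ih =>
    rw [pow_succ', Equiv.Perm.mul_apply, ih]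
    show rot 1 _ = _
    rw [rot_rot]; simp

lemma rho_a_pow (k : ℕ) : rho a b (FreeGroup.of a ^ (3 * k)) = 1 := by
  rw [map_pow, rho_a]
  ext1 y
  rw [sig_pow]
  have : ((3 * k : ℕ) : ZMod 3) = 0 := by
    rw [Nat.cast_mul]
    have : ((3 : ℕ) : ZMod 3) = 0 := by decide
    rw [this, zero_mul]
  rw [this, rot_zero]; rfl

lemma coc_a_pow (n : ℕ) (x : Cfg) : coc a b (FreeGroup.of a ^ n) x = n * phi (x 1) := by
  induction n generalizing x with
  | zero => simp [coc]
  | succ n ih =>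
    have h1 : tau a b (FreeGroup.of a) (x, 0) = (x ∘ ⇑(sig⁻¹), phi (x 1)) := by
      simp [tau, gen, cgen, skew_apply]
    have h2 : (x ∘ ⇑(sig⁻¹)) 1 = x 1 := by
      show x (rot (-1) 1) = x 1
      rw [map_one]
    unfold coc
    rw [pow_succ, map_mul, Equiv.Perm.mul_apply, h1, tau_apply, ih, h2]
    push_cast; ring

lemma a_pow_mem (k : ℕ) (x : Cfg) :
    FreeGroup.of a ^ (3 * k) ∈ (D a b x).grp ↔ ((3 * k : ℕ) : ZMod 4) * phi (x 1) = 0 := by
  rw [mem_D, coc_a_pow]
  simp only [rho_a_pow, true_and]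

lemma infinite_D (x : Cfg) : ((D a b x).grp : Set (FreeGroup α)).Infinite := by
  classical
  refine Set.infinite_of_injective_forall_mem (f := fun k : ℕ => FreeGroup.of a ^ (3 * (4 * k)))
    ?_ ?_
  · intro k l h
    have := congrArg FreeGroup.norm h
    simp only [FreeGroup.norm_of_pow] at this
    omega
  · intro k
    refine (a_pow_mem a b (4 * k) x).2 ?_
    have : ((3 * (4 * k) : ℕ) : ZMod 4) = 0 := by
      rw [Nat.cast_mul, Nat.cast_mul]
      have : ((4 : ℕ) : ZMod 4) = 0 := by decide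
      rw [this]; simp
    rw [this, zero_mul]

noncomputable def col (Δ : SubSp (FreeGroup α)) : ZMod 3 :=
  if Δ.ind (FreeGroup.of a ^ (3 * 1)) then 0 else if Δ.ind (FreeGroup.of a ^ (3 * 2)) then 1 else 2

lemma col_D (x : Cfg) : col a (D a b x) = x 1 := by
  unfold col
  simp only [SubSp.ind, a_pow_mem, decide_eq_true_eq]
  generalize x 1 = c
  revert c
  decide

lemma continuous_col : Continuous (col a : SubSp (FreeGroup α) → ZMod 3) := by
  have : Continuous (fun p : Bool × Bool => if p.1 then (0 : ZMod 3) else if p.2 then 1 else 2) :=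
    continuous_of_discreteTopology
  exact this.comp ((continuous_ind_apply _).prodMk (continuous_ind_apply _))

noncomputable def beta (i : ZMod 3) : FreeGroup α :=
  FreeGroup.of a ^ i.val * FreeGroup.of b * (FreeGroup.of a ^ i.val)⁻¹

lemma rho_beta (hab : a ≠ b) (i : ZMod 3) (y : Y) :
    rho a b (beta a b i) y = y * (lt (i, true))⁻¹ := by
  have hb : rho a b (FreeGroup.of b) = Equiv.mulRight (lt (0, true))⁻¹ := by
    simp [rho, gen, hab.symm]
  unfold beta
  rw [map_mul, map_mul, map_inv, map_pow, rho_a, hb]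
  obtain ⟨z, rfl⟩ := (sig ^ i.val).surjective y
  rw [Equiv.Perm.mul_apply, Equiv.Perm.mul_apply, Equiv.Perm.coe_inv, Equiv.symm_apply_apply]
  simp only [Equiv.coe_mulRight, sig_pow, map_mul, map_inv, rot_lt]
  simp

lemma lt_false (i : ZMod 3) : lt (i, false) = (lt (i, true))⁻¹ := by
  simp [lt, FreeGroup.inv_mk, FreeGroup.invRev]

noncomputable def Fi (i : ZMod 3) (Δ : SubSp (FreeGroup α)) : ℝ :=
  (om (col a Δ) (col a (conj (beta a b i) Δ)) : ℤ)

lemma continuous_Fi (i : ZMod 3) : Continuous (Fi a b i) :=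
  cont2 (fun c c' => ((om c c' : ℤ) : ℝ)) _ _ (continuous_col a)
    ((continuous_col a).comp (continuous_conj _))

noncomputable def G (Δ : SubSp (FreeGroup α)) : ℝ :=
  ∑ i : ZMod 3, (Fi a b i Δ - Fi a b i (conj (beta a b i)⁻¹ Δ))

lemma G_D (hab : a ≠ b) (z : Cfg) : G a b (D a b z) = ((∑ l : Lt, om (z 1) (z (lt l)) : ℤ) : ℝ) := by
  unfold G
  rw [Fintype.sum_prod_type]
  push_cast
  refine Finset.sum_congr rfl fun i _ => ?_
  unfold Fi
  rw [conj_conj, mul_inv_cancel, conj_one, conj_D, conj_D, col_D, col_D, col_D]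
  have e1 : (rho a b (beta a b i))⁻¹ 1 = lt (i, true) := by
    rw [Equiv.Perm.inv_eq_iff_eq, rho_beta a b hab]; simp
  have e2 : (rho a b (beta a b i)⁻¹)⁻¹ 1 = lt (i, false) := by
    rw [map_inv, inv_inv, rho_beta a b hab, lt_false, one_mul]
  simp only [Function.comp, e1, e2, Fintype.sum_bool]
  rw [om_anti (z (lt (i, false)))]
  push_cast; ring

lemma G_orbit (hab : a ≠ b) (x : Cfg) (hx : x ∈ K) (γ : FreeGroup α) :
    1 ≤ G a b (conj γ (D a b x)) := by
  rw [conj_D, G_D a b hab]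
  obtain ⟨h, j, H⟩ := rho_struct a b γ⁻¹
  rw [map_inv] at H
  have := hx h
  have e : ∑ l : Lt, om ((x ∘ ⇑((rho a b γ)⁻¹)) 1) ((x ∘ ⇑((rho a b γ)⁻¹)) (lt l)) =
      ∑ l : Lt, om (x h) (x (lt l * h)) := by
    simp only [Function.comp, H, map_one, one_mul, rot_lt]
    exact Fintype.sum_equiv ((Equiv.addRight j).prodCongr (Equiv.refl Bool)) _ _ fun l => rfl
  rw [e]
  exact_mod_cast this

lemma no_IRS (hab : a ≠ b) (x : Cfg) (hx : x ∈ K) :
    ¬ ∃ μ, IsIRS μ ∧ μ (orbitClosure (D a b x)) = 1 := by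
  rintro ⟨μ, hμ, h1⟩
  have := hμ.1
  have hcG : Continuous (G a b) :=
    continuous_finsetSum _ fun i _ => (continuous_Fi a b i).sub
      ((continuous_Fi a b i).comp (continuous_conj _))
  have hcl : orbitClosure (D a b x) ⊆ {Δ | 1 ≤ G a b Δ} := by
    refine closure_minimal ?_ (isClosed_le continuous_const hcG)
    rintro _ ⟨γ, rfl⟩
    exact G_orbit a b hab x hx γ
  have hae : ∀ᵐ Δ ∂μ, (1 : ℝ) ≤ G a b Δ := by
    have : orbitClosure (D a b x) ∈ ae μ :=
      (mem_ae_iff_prob_eq_one isClosed_closure.measurableSet).2 h1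
    exact mem_of_superset this hcl
  have hb : ∀ i Δ, ‖Fi a b i Δ‖ ≤ 1 := by
    intro i Δ
    unfold Fi
    rw [Real.norm_eq_abs, abs_le]
    exact ⟨by exact_mod_cast om_ge _ _, by exact_mod_cast om_le _ _⟩
  have hi1 : ∀ i, Integrable (Fi a b i) μ := fun i =>
    Integrable.of_bound (continuous_Fi a b i).measurable.aestronglyMeasurable 1
      (Eventually.of_forall (hb i))
  have hi2 : ∀ i, Integrable (fun Δ => Fi a b i (conj (beta a b i)⁻¹ Δ)) μ := fun i =>
    Integrable.of_bound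
      ((continuous_Fi a b i).comp (continuous_conj _)).measurable.aestronglyMeasurable 1
      (Eventually.of_forall fun Δ => hb i _)
  have hiG : Integrable (G a b) μ :=
    integrable_finsetSum _ fun i _ => (hi1 i).sub (hi2 i)
  have h0 : ∫ Δ, G a b Δ ∂μ = 0 := by
    unfold G
    rw [integral_finsetSum (f := fun i Δ => Fi a b i Δ - Fi a b i (conj (beta a b i)⁻¹ Δ)) _
      fun i _ => (hi1 i).sub (hi2 i)]
    refine Finset.sum_eq_zero fun i _ => ?_
    rw [integral_sub (hi1 i) (hi2 i), integral_conj μ hμ _ _ (continuous_Fi a b i), sub_self]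
  have h2 := integral_mono_ae (integrable_const (1 : ℝ)) hiG hae
  rw [h0] at h2
  simp at h2
  linarith

end act

theorem main (α : Type*) [Nontrivial α] :
    ∃ Δ : SubSp (FreeGroup α), (Δ.grp : Set (FreeGroup α)).Infinite ∧ IsBoomerang Δ ∧
      ¬ ∃ μ, IsIRS μ ∧ μ (orbitClosure Δ) = 1 := by
  obtain ⟨a, b, hab⟩ := exists_pair_ne α
  obtain ⟨x, hx, hrec⟩ := exists_recurrent
  exact ⟨D a b x, infinite_D a b x, boomerang_D a b x hrec, no_IRS a b hab x hx⟩

end Pool.Agent.H493Z.Boom
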